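import Mathlib

/-!
Families of graphs on `[n]` whose pairwise intersections have at most two connected components:
22 > 20 graphs on four vertices and 196 > 192 graphs on five vertices.
-/

namespace Pool.Agent.Results.MP_5e9fbd_co.FourAndFive

open Finset

/-- The intersection of any two distinct members of `F` has at most two connected components. -/
def TwoComp {n : ℕ} (F : Finset (SimpleGraph (Fin n))) : Prop :=
  ∀ G ∈ F, ∀ G' ∈ F, G ≠ G' → Nat.card (G ⊓ G').ConnectedComponent ≤ 2

/-- the graph with the edges `{a e, b e}`, for the binary digits `e` of `x` -/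
def gr {n m : ℕ} (a b : Fin m → Fin n) (x : ℕ) : SimpleGraph (Fin n) where
  Adj i j := i ≠ j ∧ ∃ e : Fin m, x.testBit e = true ∧ ((a e = i ∧ b e = j) ∨ (a e = j ∧ b e = i))
  symm := ⟨fun i j h => ⟨h.1.symm, by
    obtain ⟨e, he, h2⟩ := h.2
    exact ⟨e, he, h2.symm⟩⟩⟩
  loopless := ⟨fun i h => h.1 rfl⟩

/-- the pairs given by `a`, `b` are distinct -/
def Dist {n m : ℕ} (a b : Fin m → Fin n) : Prop :=
  (∀ e, a e ≠ b e) ∧ ∀ e f, (a e = a f ∧ b e = b f) ∨ (a e = b f ∧ b e = a f) → e = f

lemma testBit_iff {n m : ℕ} {a b : Fin m → Fin n} (h : Dist a b) (x : ℕ) (e : Fin m) :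
    x.testBit e = true ↔ (gr a b x).Adj (a e) (b e) := by
  constructor
  · intro hx
    exact ⟨h.1 e, e, hx, Or.inl ⟨rfl, rfl⟩⟩
  · rintro ⟨-, f, hf, h2⟩
    have : f = e := by
      apply h.2
      rcases h2 with h2 | h2
      · exact Or.inl h2
      · exact Or.inr h2
    rw [← this]; exact hf

lemma gr_injOn {n m : ℕ} {a b : Fin m → Fin n} (h : Dist a b) {x y : ℕ} (hx : x < 2 ^ m)
    (hy : y < 2 ^ m) (hxy : gr a b x = gr a b y) : x = y := by
  apply Nat.eq_of_testBit_eq
  intro i
  by_cases hi : i < m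
  · have h1 := testBit_iff h x ⟨i, hi⟩
    have h2 := testBit_iff h y ⟨i, hi⟩
    rw [hxy, ← h2] at h1
    simp only at h1
    exact Bool.eq_iff_iff.2 h1
  · have h3 : 2 ^ m ≤ 2 ^ i := Nat.pow_le_pow_right (by norm_num) (by omega)
    rw [Nat.testBit_lt_two_pow (lt_of_lt_of_le hx h3),
      Nat.testBit_lt_two_pow (lt_of_lt_of_le hy h3)]

lemma gr_mono {n m : ℕ} (a b : Fin m → Fin n) {x y : ℕ} (h : x &&& y = x) :
    gr a b x ≤ gr a b y := by
  intro i j hij
  obtain ⟨h1, e, he, h2⟩ := hij
  refine ⟨h1, e, ?_, h2⟩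
  rw [← h, Nat.testBit_land, Bool.and_eq_true] at he
  exact he.2

lemma land_trans {t m x : ℕ} (h1 : t &&& m = t) (h2 : x &&& m = m) : t &&& x = t := by
  rw [← h1, Nat.land_assoc, Nat.land_comm m x, h2]

/-- adjacency or equality, as a Boolean function -/
def ad {n m : ℕ} (a b : Fin m → Fin n) (x : ℕ) (i j : Fin n) : Bool :=
  decide (i = j) || (List.finRange m).any (fun e => x.testBit e &&
    ((decide (a e = i) && decide (b e = j)) || (decide (a e = j) && decide (b e = i))))

lemma reach_of_ad {n m : ℕ} {a b : Fin m → Fin n} {x : ℕ} {i j : Fin n}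
    (h : ad a b x i j = true) : (gr a b x).Reachable i j := by
  unfold ad at h
  rw [Bool.or_eq_true, decide_eq_true_eq] at h
  rcases h with h | h
  · rw [h]
  · by_cases hij : i = j
    · rw [hij]
    rw [List.any_eq_true] at h
    obtain ⟨e, -, he⟩ := h
    rw [Bool.and_eq_true, Bool.or_eq_true, Bool.and_eq_true, Bool.and_eq_true, decide_eq_true_eq,
      decide_eq_true_eq, decide_eq_true_eq, decide_eq_true_eq] at he
    exact SimpleGraph.Adj.reachable ⟨hij, e, he⟩

/-- every vertex is joined by a path with at most three edges to `r` or to `s` -/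
def two {n m : ℕ} (a b : Fin m → Fin n) (x : ℕ) : Bool :=
  (List.finRange n).any (fun r => (List.finRange n).any (fun s =>
    (List.finRange n).all (fun v => (List.finRange n).any (fun u =>
      ad a b x v u && (List.finRange n).any (fun w => ad a b x u w && (ad a b x w r || ad a b x w s))))))

lemma card_of_two {n m : ℕ} {a b : Fin m → Fin n} {x : ℕ} (h : two a b x = true)
    {G : SimpleGraph (Fin n)} (hG : gr a b x ≤ G) : Nat.card G.ConnectedComponent ≤ 2 := by
  unfold two at h
  rw [List.any_eq_true] at h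
  obtain ⟨r, -, h⟩ := h
  rw [List.any_eq_true] at h
  obtain ⟨s, -, h⟩ := h
  rw [List.all_eq_true] at h
  have key : ∀ v, G.Reachable v r ∨ G.Reachable v s := by
    intro v
    have h1 := h v (List.mem_finRange v)
    rw [List.any_eq_true] at h1
    obtain ⟨u, -, h1⟩ := h1
    rw [Bool.and_eq_true, List.any_eq_true] at h1
    obtain ⟨h2, w, -, h3⟩ := h1
    rw [Bool.and_eq_true, Bool.or_eq_true] at h3
    have h4 : G.Reachable v w :=
      ((reach_of_ad h2).mono hG).trans ((reach_of_ad h3.1).mono hG)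
    rcases h3.2 with h5 | h5
    · left; exact h4.trans ((reach_of_ad h5).mono hG)
    · right; exact h4.trans ((reach_of_ad h5).mono hG)
  have hsurj : Function.Surjective (fun c : Bool =>
      G.connectedComponentMk (if c then r else s)) := by
    intro c
    obtain ⟨v, rfl⟩ := c.exists_rep
    rcases key v with h1 | h1
    · refine ⟨true, ?_⟩
      exact (SimpleGraph.ConnectedComponent.sound h1).symm
    · refine ⟨false, ?_⟩
      exact (SimpleGraph.ConnectedComponent.sound h1).symm
  have := Nat.card_le_card_of_surjective _ hsurj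
  simpa using this

/-- The family of all graphs containing one of the graphs of the list `L`. -/
noncomputable def fam {n m : ℕ} (a b : Fin m → Fin n) (L : List ℕ) : Finset (SimpleGraph (Fin n)) :=
  by
    classical
    exact ((range (2 ^ m)).filter (fun x => L.any (fun t => x &&& t == t) = true)).image (gr a b)

lemma fam_card {n m : ℕ} {a b : Fin m → Fin n} (h : Dist a b) (L : List ℕ) :
    (fam a b L).card =
      ((range (2 ^ m)).filter (fun x => L.any (fun t => x &&& t == t) = true)).card := by
  classical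
  unfold fam
  rw [card_image_of_injOn]
  intro x hx y hy hxy
  rw [mem_coe, mem_filter, mem_range] at hx hy
  exact gr_injOn h hx.1 hy.1 hxy

lemma fam_twoComp {n m : ℕ} {a b : Fin m → Fin n} (L T : List ℕ)
    (hT : T.all (fun t => two a b t) = true)
    (hL : L.all (fun x => L.all (fun y => T.any (fun t => t &&& (x &&& y) == t))) = true) :
    TwoComp (fam a b L) := by
  classical
  intro G hG G' hG' _
  obtain ⟨x, hx, rfl⟩ := mem_image.1 hG
  obtain ⟨y, hy, rfl⟩ := mem_image.1 hG'
  have hx := (mem_filter.1 hx).2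
  have hy := (mem_filter.1 hy).2
  rw [List.any_eq_true] at hx hy
  obtain ⟨u, hu, hu2⟩ := hx
  obtain ⟨v, hv, hv2⟩ := hy
  rw [beq_iff_eq] at hu2 hv2
  rw [List.all_eq_true] at hL hT
  have h1 := hL u hu
  rw [List.all_eq_true] at h1
  have h2 := h1 v hv
  rw [List.any_eq_true] at h2
  obtain ⟨t, ht, ht2⟩ := h2
  rw [beq_iff_eq] at ht2
  have hu3 : t &&& u = t := by
    rw [← ht2, Nat.land_assoc, Nat.land_assoc, Nat.land_comm v u, ← Nat.land_assoc u u v,
      Nat.and_self]
  have hv3 : t &&& v = t := by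
    rw [← ht2, Nat.land_assoc, Nat.land_assoc, Nat.and_self]
  refine card_of_two (hT t ht) (le_inf (gr_mono a b ?_) (gr_mono a b ?_))
  · exact land_trans hu3 hu2
  · exact land_trans hv3 hv2

/-- the pairs of elements of `Fin 4` -/
def a4 : Fin 6 → Fin 4 := ![0, 0, 0, 1, 1, 2]
/-- the pairs of elements of `Fin 4` -/
def b4 : Fin 6 → Fin 4 := ![1, 2, 3, 2, 3, 3]
/-- the pairs of elements of `Fin 5` -/
def a5 : Fin 10 → Fin 5 := ![0, 0, 0, 0, 1, 1, 1, 2, 2, 3]
/-- the pairs of elements of `Fin 5` -/
def b5 : Fin 10 → Fin 5 := ![1, 2, 3, 4, 2, 3, 4, 3, 4, 4]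

/-- the graphs on four vertices with four edges -/
def L4 : List ℕ := [15, 23, 27, 29, 30, 39, 43, 45, 46, 51, 53, 54, 57, 58, 60]
/-- the graphs on four vertices with two edges -/
def T4 : List ℕ := [3, 5, 9, 17, 33, 6, 10, 18, 34, 12, 20, 36, 24, 40, 48]

/-- the minimal members of the family on five vertices -/
def L5 : List ℕ := [218, 602, 666, 714, 722, 728, 95, 126, 221, 252, 467, 599, 630, 655, 669, 683,
  697, 711, 725, 739, 753, 756, 857, 918, 972, 191, 247, 379, 415, 463, 491, 494, 505, 623, 637,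
  695, 749, 799, 827, 830, 847, 883, 942, 956, 998]
/-- the forests with three edges on five vertices -/
def T5 : List ℕ := [7, 11, 35, 67, 131, 259, 515, 13, 21, 69, 133, 261, 517, 25, 41, 137, 265, 521,
  49, 81, 145, 273, 529, 97, 161, 289, 545, 193, 321, 577, 385, 641, 769, 14, 22, 38, 70, 262, 518,
  26, 42, 74, 138, 522, 50, 82, 146, 274, 530, 98, 162, 290, 546, 194, 322, 578, 386, 642, 770, 28,
  44, 76, 140, 268, 52, 84, 148, 276, 532, 100, 164, 292, 548, 196, 324, 580, 388, 644, 772, 56, 88,
  152, 280, 536, 104, 168, 296, 552, 200, 328, 584, 392, 648, 776, 112, 304, 560, 208, 592, 400, 656,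
  784, 224, 352, 416, 672, 800, 448, 704, 832]

lemma dist4 : Dist a4 b4 := by unfold Dist; decide
lemma dist5 : Dist a5 b5 := by unfold Dist; decide +kernel

lemma card4 : ((range (2 ^ 6)).filter (fun x => L4.any (fun t => x &&& t == t) = true)).card = 22 := by
  decide +kernel

lemma card5 : ((range (2 ^ 10)).filter (fun x => L5.any (fun t => x &&& t == t) = true)).card
    = 196 := by
  decide +kernel

lemma hT4 : T4.all (fun t => two a4 b4 t) = true := by decide +kernel
lemma hT5 : T5.all (fun t => two a5 b5 t) = true := by decide +kernel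
lemma hL4 : L4.all (fun x => L4.all (fun y => T4.any (fun t => t &&& (x &&& y) == t))) = true := by
  decide +kernel
lemma hL5 : L5.all (fun x => L5.all (fun y => T5.any (fun t => t &&& (x &&& y) == t))) = true := by
  decide +kernel

/-- **Main theorem.** There are a family of `22 > 20 = (5/16) 2^6` graphs on four vertices and a
family of `196 > 192 = (6/32) 2^10` graphs on five vertices whose pairwise intersections have at
most two connected components. Hence the bound of the question fails. -/
theorem result :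
    (∃ F : Finset (SimpleGraph (Fin 4)), F.card = 22 ∧ TwoComp F) ∧
    (∃ F : Finset (SimpleGraph (Fin 5)), F.card = 196 ∧ TwoComp F) ∧
    ¬ (∀ n : ℕ, 4 ≤ n → ∀ F : Finset (SimpleGraph (Fin n)), TwoComp F →
      (F.card : ℝ) ≤ ((n : ℝ) + 1) / 2 ^ n * 2 ^ (n.choose 2)) := by
  have h4 : (fam a4 b4 L4).card = 22 ∧ TwoComp (fam a4 b4 L4) :=
    ⟨by rw [fam_card dist4, card4], fam_twoComp L4 T4 hT4 hL4⟩
  have h5 : (fam a5 b5 L5).card = 196 ∧ TwoComp (fam a5 b5 L5) :=
    ⟨by rw [fam_card dist5, card5], fam_twoComp L5 T5 hT5 hL5⟩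
  refine ⟨⟨_, h4⟩, ⟨_, h5⟩, fun h => ?_⟩
  have := h 5 (by norm_num) _ h5.2
  rw [h5.1, show Nat.choose 5 2 = 10 by decide] at this
  norm_num at this

end Pool.Agent.Results.MP_5e9fbd_co.FourAndFive
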